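import Pool.Agent.Q74.PD.Stm6
import Pool.Agent.H440R2.LFL2

/-!
# Project PD (helper74), job Dio

Approximation of `h` by `m log 2 - l log 3`.
-/

set_option autoImplicit false

namespace Pool.Agent.Q241.PD.Dio

open Real Pool.Agent.Q74.PD

lemma log_three_le : Real.log 3 ≤ 2 := by
  have h : (3 : ℝ) ≤ Real.exp 2 := by
    have := Real.add_one_le_exp (2 : ℝ)
    linarith
  calc Real.log 3 ≤ Real.log (Real.exp 2) := Real.log_le_log (by norm_num) h
    _ = 2 := Real.log_exp 2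

/-- The growth condition. -/
lemma growth {x : ℝ} (hx : 400 ≤ x) : 8 * (1 + Real.log (1740 * x * Real.exp (x / 16))) ≤ x := by
  have hx0 : 0 < x := by linarith
  rw [Real.log_mul (by positivity) (by positivity), Real.log_exp, Real.log_mul (by norm_num) (by positivity)]
  have h1 : Real.log 1740 ≤ 8 := by
    have h2 : (1740 : ℝ) ≤ Real.exp 8 := by
      have h3 : (2.7182818283 : ℝ) ≤ Real.exp 1 := Real.exp_one_gt_d9.le
      have h4 : Real.exp 8 = (Real.exp 1) ^ 8 := by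
        rw [← Real.exp_nat_mul]
        norm_num
      rw [h4]
      calc (1740 : ℝ) ≤ 2.7182818283 ^ 8 := by norm_num
        _ ≤ (Real.exp 1) ^ 8 := pow_le_pow_left₀ (by norm_num) h3 8
    calc Real.log 1740 ≤ Real.log (Real.exp 8) := Real.log_le_log (by norm_num) h2
      _ = 8 := Real.log_exp 8
  -- log x ≤ x / 100 + log 100 - 1
  have h2 : Real.log x ≤ x / 100 + 4 := by
    have h3 : Real.log (x / 100) ≤ x / 100 - 1 := Real.log_le_sub_one_of_pos (by positivity)
    rw [Real.log_div (by positivity) (by norm_num)] at h3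
    have h4 : Real.log 100 ≤ 5 := by
      have h5 : (100 : ℝ) ≤ Real.exp 5 := by
        have h3 : (2.7182818283 : ℝ) ≤ Real.exp 1 := Real.exp_one_gt_d9.le
        have h4 : Real.exp 5 = (Real.exp 1) ^ 5 := by
          rw [← Real.exp_nat_mul]
          norm_num
        rw [h4]
        calc (100 : ℝ) ≤ 2.7182818283 ^ 5 := by norm_num
          _ ≤ (Real.exp 1) ^ 5 := pow_le_pow_left₀ (by norm_num) h3 5
      calc Real.log 100 ≤ Real.log (Real.exp 5) := Real.log_le_log (by norm_num) h5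
        _ = 5 := Real.log_exp 5
    linarith
  linarith

/-- One approximation, for every large `L`. -/
lemma step (L : ℕ) (hL : 400 ≤ L) (h : ℝ) (h0 : 0 ≤ h) (h1 : h ≤ 1) :
    ∃ m l : ℕ, (m : ℝ) ≤ Real.exp (83521 * (L : ℝ) ^ 2) ∧ (l : ℝ) ≤ Real.exp (83521 * (L : ℝ) ^ 2) ∧
      |h - abs (m * Real.log 2 - l * Real.log 3)| ≤ 2 * Real.exp (-(L / 16)) := by
  have hLr : (400 : ℝ) ≤ L := by exact_mod_cast hL
  have hlog2 : 0 < Real.log 2 := Real.log_pos (by norm_num)
  have hlog2' : Real.log 2 < 0.6931471808 := Real.log_two_lt_d9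
  have hlog3 : Real.log 2 < Real.log 3 := Real.log_lt_log (by norm_num) (by norm_num)
  set Q : ℕ := ⌊Real.exp (L / 16)⌋₊ with hQ
  have hexp' : (26 : ℝ) ≤ Real.exp (L / 16) := by
    have := Real.add_one_le_exp ((L : ℝ) / 16)
    linarith
  have hexp : (2 : ℝ) ≤ Real.exp (L / 16) := by linarith
  have hQle : (Q : ℝ) ≤ Real.exp (L / 16) := Nat.floor_le (by positivity)
  have hQlt : Real.exp (L / 16) < Q + 1 := Nat.lt_floor_add_one _
  have hQ0 : 0 < Q := by
    have : (0 : ℝ) < Q := by linarith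
    exact_mod_cast this
  obtain ⟨j, k, hk0, hkQ, hjk⟩ := Real.exists_int_int_abs_mul_sub_le (Real.log 3 / Real.log 2) hQ0
  obtain ⟨k, rfl⟩ := Int.eq_ofNat_of_zero_le hk0.le
  have hk1 : 1 ≤ k := by
    have : (0 : ℤ) < k := hk0
    omega
  have hkQ' : k ≤ Q := by exact_mod_cast hkQ
  have hk1r : (1 : ℝ) ≤ k := by exact_mod_cast hk1
  have hkQr : (k : ℝ) ≤ Q := by exact_mod_cast hkQ'
  have hξ : 1 < Real.log 3 / Real.log 2 := by
    rw [lt_div_iff₀ hlog2]
    linarith
  have hξ2 : Real.log 3 / Real.log 2 ≤ 1.6 := by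
    rw [div_le_iff₀ hlog2]
    have h5 : Real.log (3 ^ 5) ≤ Real.log (2 ^ 8) := Real.log_le_log (by norm_num) (by norm_num)
    rw [Real.log_pow, Real.log_pow] at h5
    push_cast at h5
    linarith
  have hjk' : |(k : ℝ) * (Real.log 3 / Real.log 2) - j| ≤ 1 / ((Q : ℝ) + 1) := by
    simpa using hjk
  have hQ1 : (1 : ℝ) ≤ Q := by exact_mod_cast hQ0
  have hhalf : 1 / ((Q : ℝ) + 1) ≤ 1 / 2 := one_div_le_one_div_of_le (by norm_num) (by linarith)
  have hj0 : (0 : ℝ) < j := by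
    have := (abs_le.1 hjk').2
    have h5 : (k : ℝ) * 1 < k * (Real.log 3 / Real.log 2) :=
      mul_lt_mul_of_pos_left hξ (by linarith)
    linarith
  have hj0' : 0 < j := by exact_mod_cast hj0
  obtain ⟨j, rfl⟩ := Int.eq_ofNat_of_zero_le hj0'.le
  have hj1 : 1 ≤ j := by
    have : (0 : ℤ) < j := hj0'
    omega
  have hj2 : (j : ℝ) ≤ 2 * Q := by
    have h5 := (abs_le.1 hjk').1
    have h6 : (k : ℝ) * (Real.log 3 / Real.log 2) ≤ k * 1.6 :=
      mul_le_mul_of_nonneg_left hξ2 (by linarith)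
    have h7 : ((j : ℤ) : ℝ) = (j : ℝ) := by norm_cast
    rw [h7] at h5
    linarith
  -- the linear form
  set θ : ℝ := |(k : ℝ) * Real.log 3 - j * Real.log 2| with hθ
  have hθ1 : θ ≤ 1 / ((Q : ℝ) + 1) := by
    have h5 : (k : ℝ) * Real.log 3 - j * Real.log 2 =
        Real.log 2 * (k * (Real.log 3 / Real.log 2) - j) := by
      field_simp
    rw [hθ, h5, abs_mul, abs_of_pos hlog2]
    have h6 : |(k : ℝ) * (Real.log 3 / Real.log 2) - j| ≤ 1 / ((Q : ℝ) + 1) := by
      have h7 : ((j : ℤ) : ℝ) = (j : ℝ) := by norm_cast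
      rw [h7] at hjk'
      exact hjk'
    calc Real.log 2 * |(k : ℝ) * (Real.log 3 / Real.log 2) - j| ≤ 1 * (1 / ((Q : ℝ) + 1)) :=
          mul_le_mul (by linarith) h6 (abs_nonneg _) (by norm_num)
      _ = 1 / ((Q : ℝ) + 1) := one_mul _
  have hθ2 : Real.exp (-(83520 * (L : ℝ) ^ 2)) < θ := by
    have h5 := Pool.Agent.H440R2.lfl 2 3 j k 2 L (by norm_num) (by norm_num) (by norm_num) hj1 hk1
      (by norm_num) (by omega) (by push_cast; linarith) (by push_cast; exact log_three_le)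
      (by
        push_cast
        refine le_trans ?_ (growth hLr)
        have h6 : Real.log (290 * 2 * (L : ℝ) * (j + k)) ≤
            Real.log (1740 * (L : ℝ) * Real.exp (L / 16)) := by
          apply Real.log_le_log (by positivity)
          have h7 : (j : ℝ) + k ≤ 3 * Real.exp (L / 16) := by linarith
          have h8 : (290 * 2 * (L : ℝ)) * (j + k) ≤ (290 * 2 * (L : ℝ)) * (3 * Real.exp (L / 16)) :=
            mul_le_mul_of_nonneg_left h7 (by positivity)
          linarith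
        linarith)
    push_cast at h5
    rw [hθ]
    have h6 : -(20880 * (2 : ℝ) ^ 2 * (L : ℝ) ^ 2) = -(83520 * (L : ℝ) ^ 2) := by ring
    rw [h6] at h5
    exact h5
  have hθ0 : 0 < θ := lt_trans (Real.exp_pos _) hθ2
  set n : ℕ := ⌊h / θ⌋₊ with hn
  have hn1 : (n : ℝ) ≤ h / θ := Nat.floor_le (by positivity)
  have hn2 : h / θ < n + 1 := Nat.lt_floor_add_one _
  have hn3 : (n : ℝ) * θ ≤ h := by
    rwa [le_div_iff₀ hθ0] at hn1
  have hn4 : h < (n + 1) * θ := by
    rwa [div_lt_iff₀ hθ0] at hn2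
  have hn5 : (n : ℝ) ≤ Real.exp (83520 * (L : ℝ) ^ 2) := by
    refine hn1.trans ?_
    rw [div_le_iff₀ hθ0]
    have h5 : Real.exp (83520 * (L : ℝ) ^ 2) * Real.exp (-(83520 * (L : ℝ) ^ 2)) = 1 := by
      rw [← Real.exp_add, add_neg_cancel, Real.exp_zero]
    have h6 : Real.exp (83520 * (L : ℝ) ^ 2) * Real.exp (-(83520 * (L : ℝ) ^ 2)) ≤
        Real.exp (83520 * (L : ℝ) ^ 2) * θ := mul_le_mul_of_nonneg_left hθ2.le (Real.exp_pos _).le
    linarith
  have hbig : 2 * (Q : ℝ) ≤ Real.exp ((L : ℝ) ^ 2) := by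
    have h5 : 2 * Real.exp (L / 16) ≤ Real.exp (L / 16) * Real.exp (L / 16) :=
      mul_le_mul_of_nonneg_right hexp (Real.exp_pos _).le
    rw [← Real.exp_add] at h5
    have h6 : Real.exp (L / 16 + L / 16) ≤ Real.exp ((L : ℝ) ^ 2) := by
      rw [Real.exp_le_exp]
      nlinarith
    linarith
  have hprod : ∀ a : ℕ, (a : ℝ) ≤ 2 * Q → ((n * a : ℕ) : ℝ) ≤ Real.exp (83521 * (L : ℝ) ^ 2) := by
    intro a ha
    push_cast
    calc (n : ℝ) * a ≤ Real.exp (83520 * (L : ℝ) ^ 2) * Real.exp ((L : ℝ) ^ 2) :=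
          mul_le_mul hn5 (ha.trans hbig) (by positivity) (Real.exp_pos _).le
      _ = Real.exp (83521 * (L : ℝ) ^ 2) := by
          rw [← Real.exp_add]
          ring_nf
  refine ⟨n * j, n * k, hprod j hj2, hprod k (by linarith), ?_⟩
  have h5 : |((n * j : ℕ) : ℝ) * Real.log 2 - ((n * k : ℕ) : ℝ) * Real.log 3| = n * θ := by
    push_cast
    have h6 : (n : ℝ) * j * Real.log 2 - n * k * Real.log 3 =
        -(n * (k * Real.log 3 - j * Real.log 2)) := by ring
    rw [h6, abs_neg, abs_mul, Nat.abs_cast]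
  rw [h5, abs_of_nonneg (by linarith)]
  have h6 : h - n * θ ≤ θ := by linarith
  have h7 : 1 / ((Q : ℝ) + 1) ≤ Real.exp (-(L / 16)) := by
    rw [Real.exp_neg, ← one_div]
    exact one_div_le_one_div_of_le (Real.exp_pos _) hQlt.le
  have h8 := Real.exp_pos (-((L : ℝ) / 16))
  linarith

/-- **S_Dio.** -/
theorem dio : S_Dio := by
  refine ⟨1 / 4624, Real.exp 26, by norm_num, Real.exp_pos _, ?_⟩
  intro M hM h h0 h1
  have hlM : 0 ≤ Real.log M := Real.log_nonneg hM
  set s : ℝ := √(Real.log M) with hs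
  have hs0 : 0 ≤ s := Real.sqrt_nonneg _
  have hs2 : s ^ 2 = Real.log M := Real.sq_sqrt hlM
  set L : ℕ := ⌊s / 289⌋₊ with hL
  have hL1 : (L : ℝ) ≤ s / 289 := Nat.floor_le (by positivity)
  have hL2 : s / 289 < L + 1 := Nat.lt_floor_add_one _
  by_cases hc : 400 ≤ L
  · obtain ⟨m, l, hm, hl, hml⟩ := step L hc h h0 h1
    have h3 : Real.exp (83521 * (L : ℝ) ^ 2) ≤ M := by
      have h4 : 83521 * (L : ℝ) ^ 2 ≤ Real.log M := by
        rw [← hs2]
        have h5 : (0 : ℝ) ≤ L := by positivity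
        have h6 : 289 * (L : ℝ) ≤ s := by linarith
        nlinarith
      calc Real.exp (83521 * (L : ℝ) ^ 2) ≤ Real.exp (Real.log M) := Real.exp_le_exp.2 h4
        _ = M := Real.exp_log (by linarith)
    refine ⟨m, l, hm.trans h3, hl.trans h3, hml.trans ?_⟩
    have h4 : (2 : ℝ) ≤ Real.exp 1 := by
      have := Real.add_one_le_exp (1 : ℝ)
      linarith
    calc 2 * Real.exp (-(L / 16)) ≤ Real.exp 1 * Real.exp (-(L / 16)) :=
          mul_le_mul_of_nonneg_right h4 (Real.exp_pos _).le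
      _ = Real.exp (1 + -(L / 16)) := by rw [← Real.exp_add]
      _ ≤ Real.exp (26 + -(1 / 4624) * s) := by
          rw [Real.exp_le_exp]
          linarith
      _ = Real.exp 26 * Real.exp (-(1 / 4624) * s) := by rw [← Real.exp_add]
  · refine ⟨0, 0, by simp; linarith, by simp; linarith, ?_⟩
    have hc' : (L : ℝ) + 1 ≤ 400 := by
      have : L + 1 ≤ 400 := by omega
      exact_mod_cast this
    have h3 : (1 : ℝ) ≤ Real.exp 26 * Real.exp (-(1 / 4624) * s) := by
      rw [← Real.exp_add]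
      have h5 : Real.exp 0 ≤ Real.exp (26 + -(1 / 4624) * s) := by
        rw [Real.exp_le_exp]
        linarith
      rwa [Real.exp_zero] at h5
    have h4 : |h - abs (((0 : ℕ) : ℝ) * Real.log 2 - ((0 : ℕ) : ℝ) * Real.log 3)| = h := by
      simp [abs_of_nonneg h0]
    rw [h4]
    linarith

end Pool.Agent.Q241.PD.Dio
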