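import Pool.Agent.Q74.PD.Stm10

/-!
# Project PD (helper74), job Qsp: moments of order `q < 2` over the units
-/

set_option autoImplicit false

namespace Pool.Agent.Q241.PD

open Finset
open Pool.Agent.Q74.PD

/-- The number of the units. -/
theorem units_card (n : ℕ) (hn : 1 ≤ n) :
    (2 / 3 : ℝ) * 3 ^ n ≤ (((range (3 ^ n)).filter (fun b : ℕ => ¬ 3 ∣ b)).card : ℝ) := by
  obtain ⟨m, rfl⟩ : ∃ m, n = m + 1 := ⟨n - 1, by omega⟩
  have h1 := card_filter_add_card_filter_not (s := range (3 ^ (m + 1))) (fun b : ℕ => 3 ∣ b)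
  rw [card_range] at h1
  have h2 : ((range (3 ^ (m + 1))).filter (fun b : ℕ => 3 ∣ b)).card ≤ 3 ^ m := by
    have hsub : (range (3 ^ (m + 1))).filter (fun b : ℕ => 3 ∣ b) ⊆ (range (3 ^ m)).image (fun x => 3 * x) := by
      intro b hb
      rw [mem_filter, mem_range] at hb
      obtain ⟨x, rfl⟩ := hb.2
      refine mem_image.2 ⟨x, mem_range.2 ?_, rfl⟩
      have := hb.1
      rw [pow_succ] at this
      omega
    exact (card_le_card hsub).trans (card_image_le.trans (le_of_eq (card_range _)))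
  have h3 : (((range (3 ^ (m + 1))).filter (fun b : ℕ => 3 ∣ b)).card : ℝ) +
      (((range (3 ^ (m + 1))).filter (fun b : ℕ => ¬ 3 ∣ b)).card : ℝ) = 3 ^ (m + 1) := by
    exact_mod_cast h1
  have h4 : (((range (3 ^ (m + 1))).filter (fun b : ℕ => 3 ∣ b)).card : ℝ) ≤ 3 ^ m := by
    exact_mod_cast h2
  have hp : (3 : ℝ) ^ (m + 1) = 3 * 3 ^ m := by rw [pow_succ, mul_comm]
  rw [hp] at h3 ⊢
  linarith

/-- Dyadic decomposition of a power. -/
theorem dyad {q : ℝ} (hq : 1 ≤ q) (J : ℕ) {x : ℝ} (hx : 0 ≤ x) (hJ : x ≤ 2 ^ J) :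
    x ^ q ≤ 1 + ∑ j ∈ range J, (2 : ℝ) ^ (((j : ℝ) + 1) * (q - 1)) * (if (2 : ℝ) ^ j < x then x else 0) := by
  have hnn : ∀ j ∈ range J, 0 ≤ (2 : ℝ) ^ (((j : ℝ) + 1) * (q - 1)) * (if (2 : ℝ) ^ j < x then x else 0) := by
    intro j _
    apply mul_nonneg (Real.rpow_nonneg (by norm_num) _)
    split_ifs
    · exact hx
    · exact le_rfl
  rcases le_or_gt x 1 with h1 | h1
  · have h2 : x ^ q ≤ 1 := Real.rpow_le_one hx h1 (by linarith)
    have h3 := sum_nonneg hnn
    linarith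
  · -- the least `i` with `x ≤ 2^i`
    have hex : ∃ i : ℕ, x ≤ (2 : ℝ) ^ i := ⟨J, hJ⟩
    classical
    obtain ⟨i, hi, hmin⟩ : ∃ i : ℕ, x ≤ (2 : ℝ) ^ i ∧ ∀ j < i, (2 : ℝ) ^ j < x :=
      ⟨Nat.find hex, Nat.find_spec hex, fun j hj => not_le.1 (Nat.find_min hex hj)⟩
    have hi0 : i ≠ 0 := by
      rintro rfl
      simp at hi
      linarith
    obtain ⟨j, rfl⟩ : ∃ j, i = j + 1 := ⟨i - 1, by omega⟩
    have hjJ : j < J := by
      by_contra hcon
      have h2 : (2 : ℝ) ^ J ≤ 2 ^ j := pow_le_pow_right₀ (by norm_num) (not_lt.1 hcon)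
      have := hmin j (Nat.lt_succ_self j)
      linarith
    have hj := hmin j (Nat.lt_succ_self j)
    have h3 := single_le_sum hnn (mem_range.2 hjJ)
    rw [if_pos hj] at h3
    have hx0 : 0 < x := by linarith
    have h4 : x ^ q ≤ (2 : ℝ) ^ (((j : ℝ) + 1) * (q - 1)) * x := by
      have h5 : x ^ q = x ^ (q - 1) * x := by
        rw [← Real.rpow_add_one hx0.ne', sub_add_cancel]
      rw [h5]
      apply mul_le_mul_of_nonneg_right _ hx
      have h6 : x ^ (q - 1) ≤ ((2 : ℝ) ^ (j + 1)) ^ (q - 1) := Real.rpow_le_rpow hx hi (by linarith)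
      have h7 : ((2 : ℝ) ^ (j + 1)) ^ (q - 1) = (2 : ℝ) ^ (((j : ℝ) + 1) * (q - 1)) := by
        rw [← Real.rpow_natCast, ← Real.rpow_mul (by norm_num)]
        push_cast
        rfl
      rwa [h7] at h6
    linarith

theorem qsp (hD : S_Dlm) (hU : S_Utl) : S_Qsp := by
  intro c hc q hq
  -- the lower bound
  have hlow : ∃ l : ℝ, 0 < l ∧ ∀ d : ℤ, IsCoprime d 3 →
      (∀ n : ℕ, 1 ≤ n → ∀ b : ℤ, ¬ (3 : ℤ) ∣ b → c ≤ Dn d n b) → ∀ n : ℕ, 1 ≤ n →
      l * 3 ^ n ≤ ∑ b ∈ (range (3 ^ n)).filter (fun b : ℕ => ¬ 3 ∣ b), Dn d n b ^ q := by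
    rcases le_or_gt 0 q with h0 | h0
    · refine ⟨2 / 3 * c ^ q, by positivity, fun d hd hcd n hn => ?_⟩
      have h1 : ∀ b ∈ (range (3 ^ n)).filter (fun b : ℕ => ¬ 3 ∣ b), c ^ q ≤ Dn d n b ^ q := by
        intro b hb
        have h2 := hcd n hn (b : ℤ) (by
          rw [mem_filter] at hb
          exact_mod_cast hb.2)
        exact Real.rpow_le_rpow hc.le h2 h0
      have h2 := card_nsmul_le_sum _ _ _ h1
      rw [nsmul_eq_mul] at h2
      refine le_trans ?_ h2
      have h3 := mul_le_mul_of_nonneg_right (units_card n hn) (Real.rpow_nonneg hc.le q)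
      linarith
    · refine ⟨1 / 3 * 3 ^ q, by positivity, fun d hd hcd n hn => ?_⟩
      have hmean : ∑ b ∈ range (3 ^ n), Dn d n b = 3 ^ n := by
        have h1 := (hD d hd 0).2.2 n 0
        simp only [zero_add, pow_zero, one_mul] at h1
        rw [h1]
        have h2 : Dn d 0 0 = 1 := rfl
        rw [h2, mul_one]
      have hnn : ∀ b : ℤ, 0 ≤ Dn d n b := fun b => ((hD d hd n).1 0 b).1.trans ((hD d hd n).1 0 b).2.1
      -- Markov
      have hbig : (((range (3 ^ n)).filter (fun b : ℕ => 3 < Dn d n b)).card : ℝ) ≤ 1 / 3 * 3 ^ n := by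
        have h1 : ∑ b ∈ (range (3 ^ n)).filter (fun b : ℕ => 3 < Dn d n b), (3 : ℝ) ≤
            ∑ b ∈ range (3 ^ n), Dn d n b := by
          calc ∑ b ∈ (range (3 ^ n)).filter (fun b : ℕ => 3 < Dn d n b), (3 : ℝ)
              ≤ ∑ b ∈ (range (3 ^ n)).filter (fun b : ℕ => 3 < Dn d n b), Dn d n b :=
                sum_le_sum fun b hb => (mem_filter.1 hb).2.le
            _ ≤ _ := sum_le_sum_of_subset_of_nonneg (filter_subset _ _) fun b _ _ => hnn b
        rw [sum_const, nsmul_eq_mul, hmean] at h1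
        linarith
      set U := (range (3 ^ n)).filter (fun b : ℕ => ¬ 3 ∣ b) with hUdef
      have hgood : (1 / 3 : ℝ) * 3 ^ n ≤ ((U.filter (fun b : ℕ => ¬ 3 < Dn d n b)).card : ℝ) := by
        have h1 := card_filter_add_card_filter_not (s := U) (fun b : ℕ => 3 < Dn d n b)
        have h2 : (U.filter (fun b : ℕ => 3 < Dn d n b)).card ≤
            ((range (3 ^ n)).filter (fun b : ℕ => 3 < Dn d n b)).card :=
          card_le_card (filter_subset_filter _ (filter_subset _ _))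
        have h3 : ((U.filter (fun b : ℕ => 3 < Dn d n b)).card : ℝ) +
            ((U.filter (fun b : ℕ => ¬ 3 < Dn d n b)).card : ℝ) = (U.card : ℝ) := by exact_mod_cast h1
        have h4 : ((U.filter (fun b : ℕ => 3 < Dn d n b)).card : ℝ) ≤
            (((range (3 ^ n)).filter (fun b : ℕ => 3 < Dn d n b)).card : ℝ) := by exact_mod_cast h2
        have h5 := units_card n hn
        linarith
      have h1 : ∀ b ∈ U.filter (fun b : ℕ => ¬ 3 < Dn d n b), (3 : ℝ) ^ q ≤ Dn d n b ^ q := by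
        intro b hb
        rw [mem_filter, hUdef, mem_filter] at hb
        have h2 := hcd n hn (b : ℤ) (by exact_mod_cast hb.1.2)
        exact Real.rpow_le_rpow_of_nonpos (by linarith) (not_lt.1 hb.2) h0.le
      have h2 := card_nsmul_le_sum _ _ _ h1
      rw [nsmul_eq_mul] at h2
      have h3 : ∑ b ∈ U.filter (fun b : ℕ => ¬ 3 < Dn d n b), Dn d n b ^ q ≤ ∑ b ∈ U, Dn d n b ^ q :=
        sum_le_sum_of_subset_of_nonneg (filter_subset _ _) fun b _ _ => Real.rpow_nonneg (hnn b) q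
      have h4 := mul_le_mul_of_nonneg_right hgood (Real.rpow_nonneg (by norm_num : (0 : ℝ) ≤ 3) q)
      linarith
  -- the upper bound
  have hup : ∃ u : ℝ, 0 < u ∧ ∀ d : ℤ, IsCoprime d 3 →
      (∀ n : ℕ, 1 ≤ n → ∀ b : ℤ, ¬ (3 : ℤ) ∣ b → c ≤ Dn d n b) → ∀ n : ℕ, 1 ≤ n →
      ∑ b ∈ (range (3 ^ n)).filter (fun b : ℕ => ¬ 3 ∣ b), Dn d n b ^ q ≤ u * 3 ^ n := by
    rcases le_or_gt q 0 with h0 | h0
    · refine ⟨c ^ q, by positivity, fun d hd hcd n hn => ?_⟩
      have h1 : ∀ b ∈ (range (3 ^ n)).filter (fun b : ℕ => ¬ 3 ∣ b), Dn d n b ^ q ≤ c ^ q := by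
        intro b hb
        have h2 := hcd n hn (b : ℤ) (by
          rw [mem_filter] at hb
          exact_mod_cast hb.2)
        exact Real.rpow_le_rpow_of_nonpos hc h2 h0
      have h2 := sum_le_card_nsmul _ _ _ h1
      rw [nsmul_eq_mul] at h2
      refine h2.trans ?_
      rw [mul_comm]
      apply mul_le_mul_of_nonneg_left _ (Real.rpow_nonneg hc.le q)
      have h3 : ((range (3 ^ n)).filter (fun b : ℕ => ¬ 3 ∣ b)).card ≤ 3 ^ n :=
        (card_filter_le _ _).trans (le_of_eq (card_range _))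
      exact_mod_cast h3
    · -- reduce to `q ≥ 1`
      set q' : ℝ := max q 1 with hq'
      have hq'1 : 1 ≤ q' := le_max_right _ _
      have hq'2 : q' < 2 := max_lt hq (by norm_num)
      have hpt : ∀ x : ℝ, 0 ≤ x → x ^ q ≤ 1 + x ^ q' := by
        intro x hx
        rcases le_or_gt x 1 with h | h
        · have h2 : x ^ q ≤ 1 := Real.rpow_le_one hx h h0.le
          have h3 : 0 ≤ x ^ q' := Real.rpow_nonneg hx _
          linarith
        · have h2 : x ^ q ≤ x ^ q' := Real.rpow_le_rpow_of_exponent_le h.le (le_max_left _ _)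
          linarith
      set ε : ℝ := (2 - q') / 2 with hε
      have hε0 : 0 < ε := by linarith
      obtain ⟨C, hC, htail⟩ := hU ε hε0
      set r : ℝ := (2 : ℝ) ^ (-ε) with hr
      have hr0 : 0 < r := Real.rpow_pos_of_pos (by norm_num) _
      have hr1 : r < 1 := Real.rpow_lt_one_of_one_lt_of_neg (by norm_num) (by linarith)
      refine ⟨2 + (2 : ℝ) ^ (q' - 1) * C * (1 - r)⁻¹, by
        have : 0 < (1 - r)⁻¹ := inv_pos.2 (by linarith)
        positivity, fun d hd hcd n hn => ?_⟩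
      have hnn : ∀ b : ℤ, 0 ≤ Dn d n b := fun b => ((hD d hd n).1 0 b).1.trans ((hD d hd n).1 0 b).2.1
      have hle : ∀ b : ℤ, Dn d n b ≤ 2 ^ (2 * n) := by
        intro b
        refine ((hD d hd n).1 0 b).2.2.1.trans ?_
        rw [pow_mul]
        exact pow_le_pow_left₀ (by norm_num) (by norm_num) n
      calc ∑ b ∈ (range (3 ^ n)).filter (fun b : ℕ => ¬ 3 ∣ b), Dn d n b ^ q
          ≤ ∑ b ∈ range (3 ^ n), Dn d n b ^ q :=
            sum_le_sum_of_subset_of_nonneg (filter_subset _ _) fun b _ _ => Real.rpow_nonneg (hnn b) q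
        _ ≤ ∑ b ∈ range (3 ^ n), (1 + (1 + ∑ j ∈ range (2 * n), (2 : ℝ) ^ (((j : ℝ) + 1) * (q' - 1)) *
              (if (2 : ℝ) ^ j < Dn d n b then Dn d n b else 0))) := by
            refine sum_le_sum fun b _ => ?_
            have h1 := hpt _ (hnn b)
            have h2 := dyad hq'1 (2 * n) (hnn b) (hle b)
            linarith
        _ = 2 * 3 ^ n + ∑ j ∈ range (2 * n), (2 : ℝ) ^ (((j : ℝ) + 1) * (q' - 1)) *
              ∑ b ∈ range (3 ^ n), (if (2 : ℝ) ^ j < Dn d n b then Dn d n b else 0) := by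
            rw [sum_add_distrib, sum_add_distrib, sum_const, card_range, sum_comm]
            simp only [← mul_sum]
            rw [nsmul_eq_mul]
            push_cast
            ring
        _ ≤ 2 * 3 ^ n + ∑ j ∈ range (2 * n), ((2 : ℝ) ^ (q' - 1) * C * 3 ^ n) * r ^ j := by
            refine add_le_add le_rfl (sum_le_sum fun j _ => ?_)
            have h1 := htail d hd n ((2 : ℝ) ^ j) (one_le_pow₀ (by norm_num))
            have h2 : (2 : ℝ) ^ (((j : ℝ) + 1) * (q' - 1)) * (C * ((2 : ℝ) ^ j) ^ (ε - 1) * 3 ^ n) =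
                ((2 : ℝ) ^ (q' - 1) * C * 3 ^ n) * r ^ j := by
              have h3 : ((2 : ℝ) ^ j) ^ (ε - 1) = (2 : ℝ) ^ ((j : ℝ) * (ε - 1)) := by
                rw [← Real.rpow_natCast, ← Real.rpow_mul (by norm_num)]
              have h4 : r ^ j = (2 : ℝ) ^ (-ε * j) := by
                rw [hr, ← Real.rpow_natCast, ← Real.rpow_mul (by norm_num)]
              have h5 : (2 : ℝ) ^ (((j : ℝ) + 1) * (q' - 1)) * (2 : ℝ) ^ ((j : ℝ) * (ε - 1)) =
                  (2 : ℝ) ^ (q' - 1) * (2 : ℝ) ^ (-ε * j) := by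
                rw [← Real.rpow_add (by norm_num), ← Real.rpow_add (by norm_num)]
                congr 1
                rw [hε]
                ring
              rw [h3, h4]
              calc _ = ((2 : ℝ) ^ (((j : ℝ) + 1) * (q' - 1)) * (2 : ℝ) ^ ((j : ℝ) * (ε - 1))) * (C * 3 ^ n) := by
                    ring
                _ = _ := by
                    rw [h5]
                    ring
            rw [← h2]
            exact mul_le_mul_of_nonneg_left h1 (Real.rpow_nonneg (by norm_num) _)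
        _ = 2 * 3 ^ n + ((2 : ℝ) ^ (q' - 1) * C * 3 ^ n) * ∑ j ∈ range (2 * n), r ^ j := by
            rw [← mul_sum]
        _ ≤ 2 * 3 ^ n + ((2 : ℝ) ^ (q' - 1) * C * 3 ^ n) * (1 - r)⁻¹ := by
            refine add_le_add le_rfl (mul_le_mul_of_nonneg_left ?_ (by positivity))
            rw [← tsum_geometric_of_lt_one hr0.le hr1]
            exact (summable_geometric_of_lt_one hr0.le hr1).sum_le_tsum _ fun i _ => by positivity
        _ = _ := by ring
  obtain ⟨l, hl, hlow⟩ := hlow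
  obtain ⟨u, hu, hup⟩ := hup
  refine ⟨max (1 / l) u, lt_max_of_lt_right hu, fun d hd hcd n hn => ⟨?_, ?_⟩⟩
  · refine le_trans (mul_le_mul_of_nonneg_right ?_ (by positivity)) (hlow d hd hcd n hn)
    rw [one_div_le (lt_max_of_lt_right hu) hl]
    exact le_max_left _ _
  · exact (hup d hd hcd n hn).trans (mul_le_mul_of_nonneg_right (le_max_right _ _) (by positivity))

end Pool.Agent.Q241.PD
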