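import Pool.Agent.Q74.PD.Stm3

/-!
# Job PD-Unb (project PD of helper74): the limit density is not essentially bounded
-/

set_option autoImplicit false

namespace Pool.Agent.Q241.PD

open Finset Filter Topology MeasureTheory
open Pool.Agent.Q74.PD

theorem Dn_nonneg (hD : S_Dlm) {d : ℤ} (hd : IsCoprime d 3) (n : ℕ) (a : ℤ) : 0 ≤ Dn d n a := by
  have h := (hD d hd n).1 0 a
  exact h.1.trans h.2.1

theorem Dn_le (hD : S_Dlm) {d : ℤ} (hd : IsCoprime d 3) (n : ℕ) (a : ℤ) : Dn d n a ≤ 3 ^ n :=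
  ((hD d hd n).1 0 a).2.2.1

open Classical in
theorem Dn_neg_succ (hD : S_Dlm) {d : ℤ} (hd : IsCoprime d 3) (n : ℕ) :
    3 / 2 * Dn d n (-d) ≤ Dn d (n + 1) (-d) := by
  have hterm : ∀ e : ℕ, (0:ℝ) ≤ (if (3 : ℤ) ∣ 2 ^ (e + 1) * (-d) - d
      then 3 * (1 / 2 : ℝ) ^ (e + 1) * Dn d n ((2 ^ (e + 1) * (-d) - d) / 3) else 0) := by
    intro e
    split_ifs
    · have := Dn_nonneg hD hd n ((2 ^ (e + 1) * (-d) - d) / 3)
      positivity
    · exact le_rfl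
  have hsum : Summable (fun e : ℕ => (if (3 : ℤ) ∣ 2 ^ (e + 1) * (-d) - d
      then 3 * (1 / 2 : ℝ) ^ (e + 1) * Dn d n ((2 ^ (e + 1) * (-d) - d) / 3) else 0)) := by
    refine Summable.of_nonneg_of_le hterm (fun e => ?_) (summable_geometric_two.mul_left (3 * 3 ^ n))
    have h1 := Dn_le hD hd n ((2 ^ (e + 1) * (-d) - d) / 3)
    have h2 : (0:ℝ) < (1 / 2) ^ e := by positivity
    split_ifs
    · rw [pow_succ]
      nlinarith [mul_le_mul_of_nonneg_left h1 h2.le, Dn_nonneg hD hd n ((2 ^ (e + 1) * (-d) - d) / 3)]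
    · positivity
  have h0 := hsum.le_tsum 0 (fun j _ => hterm j)
  have e1 : (2 ^ (0 + 1) * (-d) - d) / 3 = -d := by
    have : (2 ^ (0 + 1) * (-d) - d : ℤ) = 3 * (-d) := by ring
    rw [this, Int.mul_ediv_cancel_left _ (by norm_num)]
  have e2 : (3 : ℤ) ∣ 2 ^ (0 + 1) * (-d) - d := ⟨-d, by ring⟩
  rw [if_pos e2, e1] at h0
  have e3 : Dn d (n + 1) (-d) = ∑' e : ℕ, (if (3 : ℤ) ∣ 2 ^ (e + 1) * (-d) - d
      then 3 * (1 / 2 : ℝ) ^ (e + 1) * Dn d n ((2 ^ (e + 1) * (-d) - d) / 3) else 0) := by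
    rw [Dn]
  rw [e3]
  refine le_trans (le_of_eq ?_) h0
  ring

theorem Dn_neg_ge (hD : S_Dlm) {d : ℤ} (hd : IsCoprime d 3) (n : ℕ) : (3 / 2 : ℝ) ^ n ≤ Dn d n (-d) := by
  induction n with
  | zero => simp [Dn]
  | succ n ih =>
    refine le_trans ?_ (Dn_neg_succ hD hd n)
    rw [pow_succ]
    linarith

theorem unb (hH : S_Haa) (hD : S_Dlm) : S_Unb := by
  intro d _ hd3 D hDm hDi hint K
  haveI := hH.1
  by_contra hcon
  have h0 : haar3 {z | K < D z} = 0 := by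
    by_contra h
    exact hcon (pos_iff_ne_zero.mpr h)
  have hae : ∀ᵐ z ∂haar3, D z ≤ K := by
    rw [ae_iff]
    simpa only [not_le] using h0
  have hle : ∀ n : ℕ, Dn d n (-d) ≤ K := by
    intro n
    have h1 : ∫ z in Cz n (-d), D z ∂haar3 ≤ ∫ z in Cz n (-d), K ∂haar3 :=
      setIntegral_mono_ae hDi.integrableOn (integrable_const K).integrableOn hae
    rw [hint n (-d), setIntegral_const, (hH.2.1 n (-d)).2, smul_eq_mul] at h1
    have h3 : (0:ℝ) < 3 ^ n := by positivity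
    rw [div_le_iff₀ h3] at h1
    have h4 : 1 / (3:ℝ) ^ n * K * 3 ^ n = K := by field_simp
    rw [h4] at h1
    exact h1
  obtain ⟨n, hn⟩ := pow_unbounded_of_one_lt K (show (1:ℝ) < 3 / 2 by norm_num)
  have := Dn_neg_ge hD hd3 n
  linarith [hle n]

end Pool.Agent.Q241.PD
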